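import Pool.Agent.Q22.SA.Main

/-!
# The antisymmetric part of `St ⊗ St` for `SL₂` over the algebraic closure of a finite field

Outline of the proof.  On the level of a finite subfield `K`, `|K| = Q`, view the elements of
`V₋` as antisymmetric functions on pairs of points of the projective line with vanishing column
sums.  If the `GL₂(K)`-module generated by a function `v` is not everything, let `M` be its
orthogonal complement and `w a b` the projection to `M` of the pair `(a, b)`.  All `w a b` have the
same norm `κ`; the vectors `w a c` for fixed `c` are almost orthogonal, so Bessel's inequality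
bounds the sum of the squares of the inner products of disjoint pairs; averaging over a split torus
then gives `|⟨w a b, w c d⟩|² √Q ≤ 4 κ²` for all distinct pairs (no Weil bound is used).  If `v` is
supported on few points compared with `Q`, the relation `∑ v (a, b) w a b = 0` is impossible.
The coefficients of `v` lie in a countable field, which embeds in `ℂ`.
-/

open scoped TensorProduct

namespace Pool.Agent.Results.MP_79d1ba_al.AntisymmetricSimple

open Q22.SA

/-- Let `F` be an algebraic closure of `𝔽_p`, `G = SL₂(F)` and `k` a field of characteristic zero.
The span `V₋ = Vm k F` of the antisymmetric tensors `ρ_{x,y}` in `St ⊗ St = TT k F` is a simple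
`kG`-module: it is nonzero and stable under `G`, and every `G`-stable subspace of it is `0` or
`V₋`. -/
theorem result (p : ℕ) [Fact p.Prime] (F : Type*) [Field F] [IsAlgClosed F] [Algebra (ZMod p) F]
    [Algebra.IsAlgebraic (ZMod p) F] (k : Type*) [Field k] [CharZero k] :
    Vm k F ≠ ⊥ ∧ Stable k F (Vm k F) ∧
    ∀ W : Submodule k (TT k F), W ≤ Vm k F → Stable k F W → W = ⊥ ∨ W = Vm k F := by
  classical
  refine ⟨?_, fun g x hx => Vm_stable g hx, ?_⟩
  · intro h
    have h1 : rr k F 0 1 ∈ Vm k F := Submodule.subset_span ⟨0, 1, zero_ne_one, rfl⟩
    rw [h, Submodule.mem_bot] at h1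
    exact rr_ne_zero h1
  · intro W hW hWs
    by_cases hb : W = ⊥
    · exact Or.inl hb
    · exact Or.inr (main p F k W hW hWs hb)

end Pool.Agent.Results.MP_79d1ba_al.AntisymmetricSimple
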